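import Pool.Agent.H59.L.T97aac3.Q188.SB.Tr
import Pool.Agent.H59.L.S8.H212R2.KLS.R4
import Pool.Agent.H59.L.S8.H212R2.KLS.T1

/-!
# Convex bodies with a strongly concave defining function
-/

set_option autoImplicit false

namespace Pool.Agent.Q188.SB

open MeasureTheory Set Filter Topology
open scoped ENNReal InnerProductSpace
open Pool.Agent.W695.KH

variable {κ : Type} [Fintype κ]

/-- Brunn-Minkowski inequality for `A + B(r) ⊆ K` -/
theorem bm (K A : Set (Eu κ)) (hK : MeasurableSet K) (hA : MeasurableSet A)
    (v r : ℝ) (hr0 : 0 < r) (hrv : r < v)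
    (hv : volume K = volume (Metric.closedBall (0 : Eu κ) v))
    (h0 : volume K ≠ 0) (ht : volume K ≠ ⊤)
    (h : ∀ x ∈ A, Metric.closedBall x r ⊆ K) :
    volume A ≤ ENNReal.ofReal ((1 - r / v) ^ Fintype.card κ) * volume K := by
  classical
  have hv0 : 0 < v := hr0.trans hrv
  set t : ℝ := r / v with htdef
  have ht0 : 0 < t := div_pos hr0 hv0
  have ht1 : t < 1 := (div_lt_one hv0).2 hrv
  have htv : t * v = r := by rw [htdef]; field_simp
  have hl : 0 < 1 - t := by linarith
  set A' : Set (Eu κ) := (fun x => (1 - t) • x) ⁻¹' A with hA'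
  have hA'm : MeasurableSet A' := (measurable_const_smul (1 - t)) hA
  have key := Pool.Agent.H212R2.KLS.PL (volume : Measure (Eu κ)) t ht0 ht1
    (A'.indicator fun _ => 1) ((Metric.closedBall (0 : Eu κ) v).indicator fun _ => 1)
    (K.indicator fun _ => 1) (measurable_const.indicator hA'm)
    (measurable_const.indicator Metric.isClosed_closedBall.measurableSet)
    (measurable_const.indicator hK) (fun x y => by
      by_cases hx : x ∈ A'
      · by_cases hy : y ∈ Metric.closedBall (0 : Eu κ) v
        · have hz : (1 - t) • x + t • y ∈ K := by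
            refine h _ hx ?_
            rw [mem_closedBall_iff_norm, add_sub_cancel_left, norm_smul, Real.norm_of_nonneg ht0.le]
            rw [mem_closedBall_zero_iff] at hy
            calc t * ‖y‖ ≤ t * v := mul_le_mul_of_nonneg_left hy ht0.le
              _ = r := htv
          rw [indicator_of_mem hx, indicator_of_mem hy, indicator_of_mem hz]
          simp
        · rw [indicator_of_notMem hy, ENNReal.zero_rpow_of_pos ht0, mul_zero]
          exact bot_le
      · rw [indicator_of_notMem hx, ENNReal.zero_rpow_of_pos hl, zero_mul]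
        exact bot_le)
  rw [lintegral_indicator_const hA'm, lintegral_indicator_const
    Metric.isClosed_closedBall.measurableSet, lintegral_indicator_const hK, one_mul, one_mul,
    one_mul, ← hv] at key
  have h1 : volume A' ^ (1 - t) ≤ volume K ^ (1 - t) := by
    have e1 : volume K = volume K ^ (1 - t) * volume K ^ t := by
      rw [← ENNReal.rpow_add _ _ h0 ht]
      simp
    nth_rw 2 [e1] at key
    have h2 : volume K ^ t ≠ 0 := by
      rw [Ne, ENNReal.rpow_eq_zero_iff]
      push Not
      exact ⟨fun h => absurd h h0, fun h => absurd h ht⟩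
    have h3 : volume K ^ t ≠ ⊤ := ENNReal.rpow_ne_top_of_nonneg ht0.le ht
    exact (ENNReal.mul_le_mul_iff_left h2 h3).1 key
  have h2 : volume A' ≤ volume K := by
    have := (ENNReal.rpow_le_rpow_iff hl).1 h1
    exact this
  rw [hA', Measure.addHaar_preimage_smul _ hl.ne'] at h2
  have hfr : Module.finrank ℝ (Eu κ) = Fintype.card κ := by simp
  rw [hfr, abs_of_pos (by positivity)] at h2
  have hc : 0 < (1 - t) ^ Fintype.card κ := by positivity
  calc volume A = ENNReal.ofReal ((1 - t) ^ Fintype.card κ) *
        (ENNReal.ofReal ((1 - t) ^ Fintype.card κ)⁻¹ * volume A) := by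
        rw [← mul_assoc, ← ENNReal.ofReal_mul hc.le, mul_inv_cancel₀ hc.ne', ENNReal.ofReal_one,
          one_mul]
    _ ≤ _ := by gcongr

/-- the data of a body with a strongly concave defining function -/
structure Bd (K : Set (Eu κ)) (h : Eu κ → ℝ) (c L v : ℝ) : Prop where
  comp : IsCompact K
  conv : Convex ℝ K
  pos : 0 < volume K
  cont : Continuous h
  nonneg : ∀ x ∈ K, 0 ≤ h x
  mid : ∀ x ∈ K, ∀ y ∈ K, (h x + h y) / 2 + c / 8 * ‖x - y‖ ^ 2 ≤ h ((1 / 2 : ℝ) • (x + y))
  ball : ∀ x ∈ K, Metric.closedBall x (h x / L) ⊆ K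
  vol : volume K = volume (Metric.closedBall (0 : Eu κ) v)
  cpos : 0 < c
  Lpos : 0 < L
  vpos : 0 < v

variable {K : Set (Eu κ)} {h : Eu κ → ℝ} {c L v : ℝ}

lemma Bd.level [Nonempty κ] (H : Bd K h c L v) (u : ℝ) (hu : 0 < u) :
    volume (K ∩ {x | u ≤ h x}) ≤
      ENNReal.ofReal (Real.exp (-(Fintype.card κ * u / (L * v)))) * volume K := by
  have hfin : volume K ≠ ⊤ := H.comp.measure_lt_top.ne
  have hL := H.Lpos
  have hv := H.vpos
  have hAm : MeasurableSet (K ∩ {x | u ≤ h x}) :=
    H.comp.measurableSet.inter (isClosed_le continuous_const H.cont).measurableSet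
  have hsub : ∀ x ∈ K ∩ {x | u ≤ h x}, Metric.closedBall x (u / L) ⊆ K := by
    intro x hx
    refine (Metric.closedBall_subset_closedBall ?_).trans (H.ball x hx.1)
    exact div_le_div_of_nonneg_right hx.2 hL.le
  rcases lt_or_ge (u / L) v with h1 | h1
  · refine (bm K _ H.comp.measurableSet hAm v (u / L) (div_pos hu hL) h1 H.vol H.pos.ne' hfin
      hsub).trans ?_
    gcongr
    have h2 : 1 - u / L / v ≤ Real.exp (-(u / L / v)) := by
      have := Real.add_one_le_exp (-(u / L / v))
      linarith
    have h3 : 0 ≤ 1 - u / L / v := by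
      rw [sub_nonneg, div_le_one hv]
      exact h1.le
    calc (1 - u / L / v) ^ Fintype.card κ ≤ Real.exp (-(u / L / v)) ^ Fintype.card κ :=
          pow_le_pow_left₀ h3 h2 _
      _ = _ := by
          rw [← Real.exp_nat_mul]
          congr 1
          field_simp
  · have h2 : ∀ r : ℝ, 0 < r → r < v → volume (K ∩ {x | u ≤ h x}) ≤
        ENNReal.ofReal ((1 - r / v) ^ Fintype.card κ) * volume K := fun r hr hrv =>
      bm K _ H.comp.measurableSet hAm v r hr hrv H.vol H.pos.ne' hfin fun x hx =>
        (Metric.closedBall_subset_closedBall (hrv.le.trans h1)).trans (hsub x hx)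
    have h3 : Tendsto (fun r : ℝ => ENNReal.ofReal ((1 - r / v) ^ Fintype.card κ) * volume K)
        (𝓝[<] v) (𝓝 (ENNReal.ofReal ((1 - v / v) ^ Fintype.card κ) * volume K)) := by
      have hcont : Continuous fun r : ℝ => ENNReal.ofReal ((1 - r / v) ^ Fintype.card κ) * volume K :=
        (ENNReal.continuous_mul_const hfin).comp (ENNReal.continuous_ofReal.comp (by fun_prop))
      exact hcont.continuousAt.mono_left nhdsWithin_le_nhds
    have h4 : (1 - v / v) ^ Fintype.card κ = 0 := by
      rw [div_self hv.ne', sub_self, zero_pow Fintype.card_ne_zero]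
    rw [h4, ENNReal.ofReal_zero, zero_mul] at h3
    have h5 : volume (K ∩ {x | u ≤ h x}) ≤ 0 := by
      refine ge_of_tendsto h3 ?_
      filter_upwards [Ioo_mem_nhdsLT hv] with r hr
      exact h2 r hr.1 hr.2
    exact h5.trans bot_le

/-- the exponential moment -/
lemma Bd.expo [Nonempty κ] (H : Bd K h c L v) :
    ∫ x in K, Real.exp (Fintype.card κ / (2 * (L * v)) * h x) ≤ 2 * (volume K).toReal := by
  have hfin : volume K ≠ ⊤ := H.comp.measure_lt_top.ne
  have hL := H.Lpos
  have hv := H.vpos
  have hn : (0:ℝ) < Fintype.card κ := by exact_mod_cast Fintype.card_pos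
  set l : ℝ := Fintype.card κ / (2 * (L * v)) with hl
  have hl0 : 0 < l := by positivity
  have hKm := H.comp.measurableSet
  -- layer cake
  have h1 := lintegral_comp_eq_lintegral_meas_le_mul (volume.restrict K) (f := h)
    (g := fun t => l * Real.exp (l * t)) ((ae_restrict_iff' hKm).2 (Eventually.of_forall H.nonneg))
    H.cont.measurable.aemeasurable
    (fun t _ => (by fun_prop : Continuous fun t => l * Real.exp (l * t)).intervalIntegrable 0 t)
    (Eventually.of_forall fun t => by positivity)
  have e1 : ∀ a : ℝ, ∫ t in (0:ℝ)..a, l * Real.exp (l * t) = Real.exp (l * a) - 1 := by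
    intro a
    have := intervalIntegral.integral_eq_sub_of_hasDerivAt (a := 0) (b := a)
      (f := fun t => Real.exp (l * t)) (f' := fun t => l * Real.exp (l * t))
      (fun t _ => by
        have h2 : HasDerivAt (fun s : ℝ => Real.exp (l * s)) (Real.exp (l * t) * (l * 1)) t :=
          ((hasDerivAt_id t).const_mul l).exp
        rw [mul_one, mul_comm] at h2
        exact h2)
      ((by fun_prop : Continuous fun t => l * Real.exp (l * t)).intervalIntegrable 0 a)
    rw [this]
    simp
  simp only [e1] at h1
  have h2 : ∫⁻ t in Ioi (0:ℝ), volume.restrict K {a | t ≤ h a} * ENNReal.ofReal (l * Real.exp (l * t)) ≤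
      ∫⁻ t in Ioi (0:ℝ), volume K * ENNReal.ofReal (l * Real.exp (-(l * t))) := by
    refine setLIntegral_mono' measurableSet_Ioi fun t ht => ?_
    have h3 : volume.restrict K {a | t ≤ h a} ≤
        ENNReal.ofReal (Real.exp (-(Fintype.card κ * t / (L * v)))) * volume K := by
      rw [Measure.restrict_apply (isClosed_le continuous_const H.cont).measurableSet, inter_comm]
      exact H.level t ht
    calc volume.restrict K {a | t ≤ h a} * ENNReal.ofReal (l * Real.exp (l * t))
        ≤ ENNReal.ofReal (Real.exp (-(Fintype.card κ * t / (L * v)))) * volume K *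
          ENNReal.ofReal (l * Real.exp (l * t)) := by gcongr
      _ = volume K * (ENNReal.ofReal (Real.exp (-(Fintype.card κ * t / (L * v)))) *
          ENNReal.ofReal (l * Real.exp (l * t))) := by ring
      _ = _ := by
          rw [← ENNReal.ofReal_mul (Real.exp_pos _).le]
          congr 2
          have : Real.exp (-(Fintype.card κ * t / (L * v))) * (l * Real.exp (l * t)) =
              l * (Real.exp (-(Fintype.card κ * t / (L * v))) * Real.exp (l * t)) := by ring
          rw [this, ← Real.exp_add]
          congr 2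
          rw [hl]
          field_simp
          ring
  have h3 : ∫⁻ t in Ioi (0:ℝ), volume K * ENNReal.ofReal (l * Real.exp (-(l * t))) = volume K := by
    rw [lintegral_const_mul _ (by fun_prop)]
    have h4 : ∫⁻ t in Ioi (0:ℝ), ENNReal.ofReal (l * Real.exp (-(l * t))) = 1 := by
      have hi : IntegrableOn (fun t : ℝ => l * Real.exp (-(l * t))) (Ioi 0) := by
        have := (exp_neg_integrableOn_Ioi 0 hl0).const_mul l
        simp only [neg_mul] at this
        exact this
      rw [← ofReal_integral_eq_lintegral_ofReal hi (Eventually.of_forall fun t => by positivity)]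
      have h5 : ∫ t in Ioi (0:ℝ), l * Real.exp (-(l * t)) = 1 := by
        rw [integral_const_mul]
        have h6 := integral_exp_neg_mul_rpow (p := 1) (b := l) one_pos hl0
        have h7 : ∫ t in Ioi (0:ℝ), Real.exp (-(l * t)) = 1 / l := by
          have := integral_exp_mul_Ioi (a := -l) (by linarith) 0
          simp only [neg_mul, mul_zero, Real.exp_zero] at this
          rw [this]
          field_simp
        rw [h7]
        field_simp
      rw [h5, ENNReal.ofReal_one]
    rw [h4, mul_one]
  rw [h3] at h2
  rw [← h1] at h2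
  -- conclude
  have hec : Continuous fun x => Real.exp (l * h x) := by
    have := H.cont
    fun_prop
  have hint : IntegrableOn (fun x => Real.exp (l * h x)) K := hec.continuousOn.integrableOn_compact H.comp
  have hint1 : IntegrableOn (fun x => Real.exp (l * h x) - 1) K :=
    (hec.sub continuous_const).continuousOn.integrableOn_compact H.comp
  have h5 : ∫ x in K, (Real.exp (l * h x) - 1) ≤ (volume K).toReal := by
    rw [integral_eq_lintegral_of_nonneg_ae]
    · exact ENNReal.toReal_mono hfin h2
    · refine (ae_restrict_iff' hKm).2 (Eventually.of_forall fun x hx => ?_)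
      show 0 ≤ Real.exp (l * h x) - 1
      have := Real.one_le_exp (mul_nonneg hl0.le (H.nonneg x hx))
      linarith
    · exact hint1.aestronglyMeasurable
  have h6 : ∫ x in K, (Real.exp (l * h x) - 1) = (∫ x in K, Real.exp (l * h x)) - (volume K).toReal := by
    rw [integral_sub hint (continuous_const.continuousOn.integrableOn_compact H.comp)]
    simp [Measure.real]
  rw [h6] at h5
  linarith

/-- **Lipschitz functions** -/
theorem Bd.lip [Nonempty κ] (H : Bd K h c L v) (f : Eu κ → ℝ) (hf : ContDiff ℝ 1 f)
    (hf1 : ∀ x, ‖fderiv ℝ f x‖ ≤ 1) : VV K f ≤ 4 * L * v / (c * Fintype.card κ) := by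
  have hfin : volume K ≠ ⊤ := H.comp.measure_lt_top.ne
  have hpos : 0 < (volume K).toReal := ENNReal.toReal_pos H.pos.ne' hfin
  have hL := H.Lpos
  have hv := H.vpos
  have hc := H.cpos
  have hn : (0:ℝ) < Fintype.card κ := by exact_mod_cast Fintype.card_pos
  have hKm := H.comp.measurableSet
  set l : ℝ := Fintype.card κ / (2 * (L * v)) with hl
  have hl0 : 0 < l := by positivity
  have hec : Continuous fun x => Real.exp (l * h x) := by
    have := H.cont
    fun_prop
  set w : Eu κ → ℝ := K.indicator fun x => Real.exp (l * h x) with hw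
  obtain ⟨B, hB⟩ := H.comp.exists_bound_of_continuousOn hec.continuousOn
  obtain ⟨R, hR⟩ := H.comp.isBounded.exists_norm_le
  obtain ⟨b, hb⟩ := Pool.Agent.H212R2.KLS.poincare_of_strong (volume : Measure (Eu κ)) w
    (fun x => indicator_nonneg (fun _ _ => (Real.exp_pos _).le) x) (hec.measurable.indicator hKm)
    ⟨max B 0, fun x => by
      by_cases hx : x ∈ K
      · rw [hw, indicator_of_mem hx]
        exact ((le_abs_self _).trans (hB x hx)).trans (le_max_left _ _)
      · rw [hw, indicator_of_notMem hx]
        exact le_max_right _ _⟩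
    ⟨R, fun x hx => indicator_of_notMem (fun h => by have := hR x h; linarith) _⟩
    (l * c) (by positivity) (fun x y => by
      by_cases hx : x ∈ K
      · by_cases hy : y ∈ K
        · have hm : (1 / 2 : ℝ) • (x + y) ∈ K := by
            rw [smul_add]
            exact H.conv hx hy (by norm_num) (by norm_num) (by norm_num)
          rw [hw, indicator_of_mem hx, indicator_of_mem hy, indicator_of_mem hm, ← Real.exp_add,
            ← Real.exp_nat_mul, ← Real.exp_add]
          refine Real.exp_le_exp.2 ?_
          have := mul_le_mul_of_nonneg_left (H.mid x hx y hy) hl0.le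
          push_cast
          linarith
        · rw [hw, indicator_of_notMem hy, mul_zero]
          positivity
      · rw [hw, indicator_of_notMem hx, zero_mul]
        positivity)
    f hf
  -- integrals
  have e1 : ∀ g : Eu κ → ℝ, ∫ x, g x * w x = ∫ x in K, g x * Real.exp (l * h x) := by
    intro g
    rw [← integral_indicator hKm]
    refine integral_congr_ae (Eventually.of_forall fun x => ?_)
    show g x * w x = K.indicator (fun x => g x * Real.exp (l * h x)) x
    by_cases hx : x ∈ K
    · rw [hw, indicator_of_mem hx, indicator_of_mem hx]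
    · rw [hw, indicator_of_notMem hx, indicator_of_notMem hx, mul_zero]
  rw [e1, e1] at hb
  have hfc := hf.continuous
  have hgc : Continuous fun x => ‖fderiv ℝ f x‖ ^ 2 :=
    ((hf.continuous_fderiv (by norm_num)).norm).pow 2
  have h1 : ∫ x in K, ‖fderiv ℝ f x‖ ^ 2 * Real.exp (l * h x) ≤ 2 * (volume K).toReal := by
    refine le_trans ?_ H.expo
    refine setIntegral_mono_on ((hgc.mul hec).continuousOn.integrableOn_compact H.comp)
      (hec.continuousOn.integrableOn_compact H.comp) hKm fun x _ => ?_
    refine mul_le_of_le_one_left (Real.exp_pos _).le ?_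
    have := hf1 x
    have := norm_nonneg (fderiv ℝ f x)
    nlinarith
  have hcc : Continuous fun x => (f x - b) ^ 2 := by fun_prop
  have h2 : ∫ x in K, (f x - b) ^ 2 ≤ ∫ x in K, (f x - b) ^ 2 * Real.exp (l * h x) := by
    refine setIntegral_mono_on (hcc.continuousOn.integrableOn_compact H.comp)
      ((hcc.mul hec).continuousOn.integrableOn_compact H.comp) hKm fun x hx => ?_
    exact le_mul_of_one_le_right (sq_nonneg _)
      (Real.one_le_exp (mul_nonneg hl0.le (H.nonneg x hx)))
  have h3 : VV K f ≤ (∫ x in K, (f x - b) ^ 2) / (volume K).toReal := by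
    unfold VV EV
    have i1 : IntegrableOn (fun x => f x ^ 2) K := (hfc.pow 2).continuousOn.integrableOn_compact H.comp
    have i2 : IntegrableOn f K := hfc.continuousOn.integrableOn_compact H.comp
    have e2 : ∫ x in K, (f x - b) ^ 2 = (∫ x in K, f x ^ 2) - 2 * b * (∫ x in K, f x) +
        b ^ 2 * (volume K).toReal := by
      have : (fun x => (f x - b) ^ 2) = fun x => (f x ^ 2 - 2 * b * f x) + b ^ 2 := by
        funext x; ring
      have i3 : IntegrableOn (fun x => 2 * b * f x) K := i2.const_mul _
      have i4 : IntegrableOn (fun _ : Eu κ => b ^ 2) K :=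
        continuous_const.continuousOn.integrableOn_compact H.comp
      have i5 : IntegrableOn (fun x => f x ^ 2 - 2 * b * f x) K := i1.sub i3
      rw [this, integral_add i5 i4, integral_sub i1 i3, integral_const_mul, setIntegral_const, smul_eq_mul, Measure.real]
      ring
    rw [e2]
    have e3 : ((∫ x in K, f x ^ 2) - 2 * b * (∫ x in K, f x) + b ^ 2 * (volume K).toReal) /
        (volume K).toReal = (∫ x in K, f x ^ 2) / (volume K).toReal -
        2 * b * ((∫ x in K, f x) / (volume K).toReal) + b ^ 2 := by
      field_simp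
    rw [e3]
    nlinarith [sq_nonneg ((∫ x in K, f x) / (volume K).toReal - b)]
  refine h3.trans ?_
  rw [div_le_iff₀ hpos]
  calc ∫ x in K, (f x - b) ^ 2 ≤ ∫ x in K, (f x - b) ^ 2 * Real.exp (l * h x) := h2
    _ ≤ (l * c)⁻¹ * ∫ x in K, ‖fderiv ℝ f x‖ ^ 2 * Real.exp (l * h x) := hb
    _ ≤ (l * c)⁻¹ * (2 * (volume K).toReal) := by gcongr
    _ = 4 * L * v / (c * Fintype.card κ) * (volume K).toReal := by
        rw [hl]
        field_simp
        ring

end Pool.Agent.Q188.SB
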