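import Pool.Agent.H59.L.S8.H888R2.KB.N1
import Pool.Agent.H59.L.S8.W695.KH.Chee2
import Pool.Agent.H59.L.S8.W12.KH.Lim

/-!
# From Lipschitz functions to sets of measure one half, for convex bodies
-/

set_option autoImplicit false

namespace Pool.Agent.Q188.SB

open MeasureTheory Set Filter Topology
open scoped ENNReal InnerProductSpace
open Pool.Agent.W695.KH
open Pool.Agent.W12.KH
open Pool.Agent.H888R2.KT (LC)
open Pool.Agent.H212R2.KLS (mu Bdd)

variable {κ : Type} [Fintype κ]

/-- normalised indicator -/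
noncomputable def rr (D : Set (Eu κ)) : Eu κ → ℝ := D.indicator fun _ => ((volume D).toReal)⁻¹

lemma rr_nonneg (D : Set (Eu κ)) (x : Eu κ) : 0 ≤ rr D x :=
  indicator_nonneg (fun _ _ => by positivity) x

lemma mu_rr (D : Set (Eu κ)) (hD : MeasurableSet D) :
    mu (rr D) = ENNReal.ofReal ((volume D).toReal)⁻¹ • volume.restrict D := by
  unfold mu rr
  have : (fun x => ENNReal.ofReal (D.indicator (fun _ => ((volume D).toReal)⁻¹) x)) =
      D.indicator fun _ => ENNReal.ofReal ((volume D).toReal)⁻¹ := by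
    ext x
    by_cases hx : x ∈ D
    · rw [indicator_of_mem hx, indicator_of_mem hx]
    · rw [indicator_of_notMem hx, indicator_of_notMem hx, ENNReal.ofReal_zero]
  rw [this, withDensity_indicator hD, withDensity_const]

lemma int_rr (D : Set (Eu κ)) (hD : MeasurableSet D) (g : Eu κ → ℝ) :
    ∫ x, g x ∂(mu (rr D)) = EV D g := by
  rw [mu_rr D hD, integral_smul_measure, ENNReal.toReal_ofReal (by positivity)]
  unfold EV
  rw [smul_eq_mul]
  ring

lemma mass_rr (D : Set (Eu κ)) (hD : IsCompact D) (hvol : 0 < volume D) :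
    mu (rr D) univ = 1 := by
  have hfin : volume D ≠ ⊤ := hD.measure_lt_top.ne
  rw [mu_rr D hD.measurableSet, Measure.smul_apply, Measure.restrict_apply_univ, smul_eq_mul]
  have h : volume D = ENNReal.ofReal (volume D).toReal := (ENNReal.ofReal_toReal hfin).symm
  have hpos : 0 < (volume D).toReal := ENNReal.toReal_pos hvol.ne' hfin
  nth_rw 2 [h]
  rw [← ENNReal.ofReal_mul (by positivity), inv_mul_cancel₀ hpos.ne', ENNReal.ofReal_one]

lemma LC_rr (D : Set (Eu κ)) (hD : IsCompact D) (hc : Convex ℝ D) (hvol : 0 < volume D) :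
    LC (rr D) := by
  have hfin : volume D ≠ ⊤ := hD.measure_lt_top.ne
  have hpos : 0 < (volume D).toReal := ENNReal.toReal_pos hvol.ne' hfin
  have hm := mass_rr D hD hvol
  refine ⟨rr_nonneg D, ?_, ?_, ?_, by rw [hm]; exact ENNReal.one_ne_top, fun h => by
    rw [h] at hm; simp at hm⟩
  · exact measurable_const.indicator hD.measurableSet
  · intro x y t ht0 ht1
    by_cases hx : x ∈ D
    · by_cases hy : y ∈ D
      · have hz : (1 - t) • x + t • y ∈ D := hc hx hy (by linarith) ht0.le (by ring)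
        unfold rr
        rw [indicator_of_mem hx, indicator_of_mem hy, indicator_of_mem hz,
          ← Real.rpow_add (inv_pos.2 hpos)]
        simp
      · have : rr D y = 0 := indicator_of_notMem hy _
        rw [this, Real.zero_rpow ht0.ne', mul_zero]
        exact rr_nonneg D _
    · have : rr D x = 0 := indicator_of_notMem hx _
      rw [this, Real.zero_rpow (by linarith), zero_mul]
      exact rr_nonneg D _
  · obtain ⟨R, hR⟩ := hD.isBounded.exists_norm_le
    refine ⟨R, fun x hx => indicator_of_notMem (fun h => ?_) _⟩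
    have := hR x h
    linarith

/-- bounded functions -/
theorem nash (D : Set (Eu κ)) (hD : IsCompact D) (hc : Convex ℝ D) (hvol : 0 < volume D)
    (D0 : ℝ) (hD0 : 0 < D0)
    (hlip : ∀ f : Eu κ → ℝ, ContDiff ℝ 1 f → (∀ x, ‖fderiv ℝ f x‖ ≤ 1) → VV D f ≤ D0)
    (u : Eu κ → ℝ) (hu : ContDiff ℝ 1 u) (hb : ∀ x, |u x| ≤ 1) :
    VV D u ^ 2 ≤ 8 * D0 * EV D fun x => ‖fderiv ℝ u x‖ ^ 2 := by
  have h := Pool.Agent.H888R2.KB.nash_lip (LC_rr D hD hc hvol) (mass_rr D hD hvol) D0 hD0
    (fun f hf hf1 => by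
      rw [int_rr D hD.measurableSet, int_rr D hD.measurableSet]
      exact hlip f hf hf1) u hu hb
  rw [int_rr D hD.measurableSet, int_rr D hD.measurableSet, int_rr D hD.measurableSet] at h
  exact h

/-- weak Poincare inequality for the approximations -/
theorem wpo (D : Set (Eu κ)) (hD : IsCompact D) (hvol : 0 < volume D)
    (D0 : ℝ) (hD0 : 0 < D0)
    (hn : ∀ u : Eu κ → ℝ, ContDiff ℝ 1 u → (∀ x, |u x| ≤ 1) →
      VV D u ^ 2 ≤ 8 * D0 * EV D fun x => ‖fderiv ℝ u x‖ ^ 2) :
    ∀ᶠ A in atTop, WPo (Uu D A) (1 / 20) (1 / (3600 * D0)) := by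
  have hne : D.Nonempty := by
    rw [nonempty_iff_ne_empty]
    intro h
    rw [h, measure_empty] at hvol
    exact lt_irrefl _ hvol
  have hfin : volume D ≠ ⊤ := hD.measure_lt_top.ne
  have hpos : 0 < (volume D).toReal := ENNReal.toReal_pos hvol.ne' hfin
  set V := (volume D).toReal with hV
  have h2 := tend (κ := κ) hD hne (g := fun _ => 1) (B := 1) continuous_const
        (fun x => by rw [abs_one, one_mul]; nlinarith [sq_nonneg ‖x‖])
  have h3 : (∫ _x in D, (1 : ℝ)) = V := by
    simp [Measure.real, hV]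
  rw [h3] at h2
  simp only [one_mul] at h2
  have hev : ∀ᶠ A in atTop, ∫ x, wt D A x < (1 + 1 / 20000) * V :=
    h2.eventually (eventually_lt_nhds (by nlinarith))
  filter_upwards [hev, eventually_gt_atTop (0 : ℝ)] with A hZ1 hA
  intro v L hv hvb hvL hδ
  set Z := ∫ x, wt D A x with hZ
  have hwi : Integrable (wt D A) := by
    have := wt_int (κ := κ) hD hne hA (g := fun _ => 1) (B := 1) continuous_const
      (fun x => by rw [abs_one, one_mul]; nlinarith [sq_nonneg ‖x‖])
    simpa using this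
  have hwD : ∀ x ∈ D, wt D A x = 1 := by
    intro x hx
    unfold wt
    rw [Metric.infDist_zero_of_mem hx]
    simp
  -- splitting
  have split : ∀ g : Eu κ → ℝ, Integrable (fun x => g x * wt D A x) →
      ∫ x, g x * wt D A x = (∫ x in D, g x) + ∫ x in Dᶜ, g x * wt D A x := by
    intro g hg
    rw [← integral_add_compl hD.measurableSet hg]
    congr 1
    refine setIntegral_congr_fun hD.measurableSet fun x hx => ?_
    show g x * wt D A x = g x
    rw [hwD x hx, mul_one]
  have hZs : Z = V + ∫ x in Dᶜ, wt D A x := by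
    have := split (fun _ => 1) (by simpa using hwi)
    simp only [one_mul] at this
    rw [h3] at this
    exact this
  set T := ∫ x in Dᶜ, wt D A x with hT
  have hT0 : 0 ≤ T := integral_nonneg fun x => (wt_pos D A x).le
  have hT1 : T < 1 / 20000 * V := by linarith
  have hZV : V ≤ Z := by linarith
  have hZpos : 0 < Z := by linarith
  -- a bounded function
  have hfar : ∀ g : Eu κ → ℝ, Continuous g → (∀ x, |g x| ≤ 1) → |∫ x in Dᶜ, g x * wt D A x| ≤ T := by
    intro g hg hg1
    rw [← Real.norm_eq_abs]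
    refine norm_integral_le_of_norm_le hwi.integrableOn (Eventually.of_forall fun x => ?_)
    rw [norm_mul, Real.norm_eq_abs, Real.norm_of_nonneg (wt_pos D A x).le]
    exact mul_le_of_le_one_left (wt_pos D A x).le (hg1 x)
  have hgi : ∀ (g : Eu κ → ℝ) (B : ℝ), Continuous g → (∀ x, |g x| ≤ B) → Integrable fun x => g x * wt D A x := by
    intro g B hg hg1
    refine wt_int hD hne hA (B := B) hg fun x => (hg1 x).trans ?_
    have hB : 0 ≤ B := (abs_nonneg _).trans (hg1 x)
    nlinarith [sq_nonneg ‖x‖, mul_nonneg hB (sq_nonneg ‖x‖)]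
  have hEV : ∀ g : Eu κ → ℝ, ∫ x in D, g x = V * EV D g := by
    intro g
    unfold EV
    rw [← hV]
    field_simp
  have hEVb : ∀ g : Eu κ → ℝ, (∀ x, |g x| ≤ 1) → |EV D g| ≤ 1 := by
    intro g hg
    unfold EV
    rw [abs_div, abs_of_pos hpos, div_le_one hpos, ← Real.norm_eq_abs]
    have := norm_setIntegral_le_of_norm_le_const (μ := volume) (s := D) (f := g) (C := 1)
      hD.measure_lt_top (fun x _ => by rw [Real.norm_eq_abs]; exact hg x)
    rw [one_mul] at this
    exact this
  -- closeness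
  have close : ∀ g : Eu κ → ℝ, Continuous g → (∀ x, |g x| ≤ 1) →
      |EU (Uu D A) g - EV D g| ≤ 1 / 10000 := by
    intro g hg hg1
    rw [EU_eq hD hne hA, split g (hgi g 1 hg hg1), hEV, ← hZ]
    have e1 : (V * EV D g + ∫ x in Dᶜ, g x * wt D A x) / Z - EV D g =
        ((∫ x in Dᶜ, g x * wt D A x) - T * EV D g) / Z := by
      rw [hZs]
      have : V + T ≠ 0 := by linarith
      field_simp
      ring
    rw [e1, abs_div, abs_of_pos hZpos, div_le_iff₀ hZpos]
    have h5 := hfar g hg hg1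
    have h6 := hEVb g hg1
    have h7 : |(∫ x in Dᶜ, g x * wt D A x) - T * EV D g| ≤ T + T * 1 := by
      refine (abs_sub _ _).trans (add_le_add h5 ?_)
      rw [abs_mul, abs_of_nonneg hT0]
      exact mul_le_mul_of_nonneg_left h6 hT0
    linarith
  have hvc := hv.continuous
  have c1 := close v hvc hvb
  have c2 := close (fun x => v x ^ 2) (hvc.pow 2) (fun x => by
    rw [abs_of_nonneg (sq_nonneg _), ← sq_abs]
    have := hvb x
    have := abs_nonneg (v x)
    nlinarith)
  have b1 := hEVb v hvb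
  have hVV : 49 / 1000 ≤ VV D v := by
    unfold VV
    rw [abs_le] at c1 c2 b1
    set a := EU (Uu D A) v
    set b := EV D v
    have : a ^ 2 - b ^ 2 ≥ -(21 / 100000) := by
      have : a ^ 2 - b ^ 2 = (a - b) * (a - b) + 2 * b * (a - b) := by ring
      rw [this]
      nlinarith [mul_nonneg (sub_nonneg.2 c1.1) (sub_nonneg.2 b1.1),
        mul_nonneg (sub_nonneg.2 c1.2) (sub_nonneg.2 b1.1),
        mul_nonneg (sub_nonneg.2 c1.1) (sub_nonneg.2 b1.2),
        mul_nonneg (sub_nonneg.2 c1.2) (sub_nonneg.2 b1.2)]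
    linarith
  have hn1 := hn v hv hvb
  have hg0 : ∀ x, 0 ≤ ‖fderiv ℝ v x‖ ^ 2 := fun x => sq_nonneg _
  have hgc : Continuous fun x => ‖fderiv ℝ v x‖ ^ 2 :=
    ((hv.continuous_fderiv (by norm_num)).norm).pow 2
  have hEUg : V / Z * EV D (fun x => ‖fderiv ℝ v x‖ ^ 2) ≤ EU (Uu D A) fun x => ‖fderiv ℝ v x‖ ^ 2 := by
    rw [EU_eq hD hne hA, split _ (hgi _ (L ^ 2) hgc fun x => by
      rw [abs_of_nonneg (hg0 x)]
      exact pow_le_pow_left₀ (norm_nonneg _) (hvL x) 2), hEV, ← hZ]
    rw [div_mul_eq_mul_div]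
    gcongr
    have : 0 ≤ ∫ x in Dᶜ, ‖fderiv ℝ v x‖ ^ 2 * wt D A x :=
      integral_nonneg fun x => mul_nonneg (hg0 x) (wt_pos D A x).le
    linarith
  refine le_trans ?_ hEUg
  have hVZ : 20000 / 20001 ≤ V / Z := by
    rw [div_le_div_iff₀ (by norm_num) hZpos]
    linarith
  have hE : (49 / 1000) ^ 2 / (8 * D0) ≤ EV D fun x => ‖fderiv ℝ v x‖ ^ 2 := by
    rw [div_le_iff₀ (by positivity)]
    have : (49 / 1000 : ℝ) ^ 2 ≤ VV D v ^ 2 := pow_le_pow_left₀ (by norm_num) hVV 2
    linarith
  calc 1 / (3600 * D0) ≤ 20000 / 20001 * ((49 / 1000) ^ 2 / (8 * D0)) := by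
        have e : 20000 / 20001 * ((49 / 1000) ^ 2 / (8 * D0)) =
            (20000 / 20001 * (49 / 1000) ^ 2 / 8) * (1 / D0) := by
          field_simp
        have e' : 1 / (3600 * D0) = (1 / 3600) * (1 / D0) := by
          field_simp
        rw [e, e']
        have : 0 ≤ 1 / D0 := by positivity
        refine mul_le_mul_of_nonneg_right ?_ this
        norm_num
    _ ≤ V / Z * EV D (fun x => ‖fderiv ℝ v x‖ ^ 2) := by
        gcongr

/-- **sets of measure one half** -/
theorem half_sets (D : Set (Eu κ)) (hD : IsCompact D) (hc : Convex ℝ D) (hvol : 0 < volume D)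
    (D0 : ℝ) (hD0 : 0 < D0)
    (hlip : ∀ f : Eu κ → ℝ, ContDiff ℝ 1 f → (∀ x, ‖fderiv ℝ f x‖ ≤ 1) → VV D f ≤ D0)
    (μ : Measure (Eu κ)) (hμ : μ = (volume D)⁻¹ • volume.restrict D) (S : Set (Eu κ))
    (hS : μ S = 1 / 2) :
    ENNReal.ofReal (1 / (240 * Real.sqrt D0)) ≤
      liminf (fun ε : ℝ => (μ (Metric.thickening ε S) - μ S) / ENNReal.ofReal ε) (𝓝[>] 0) := by
  have hs : 0 < Real.sqrt D0 := Real.sqrt_pos.2 hD0
  have hw := wpo D hD hvol D0 hD0 (fun u hu hb => nash D hD hc hvol D0 hD0 hlip u hu hb)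
  have hb := body κ D hD hc hvol (1 / 20) (1 / (3600 * D0)) (by norm_num) (by positivity) hw
  have h1 := mink2 D hD hvol (60 * Real.sqrt D0) (by positivity) (fun f L M hf hf2 hf5 => by
    have h2 := hb f L M hf hf2 (by linarith)
    have h3 : 4 / (1 / (3600 * D0)) * (EV D fun x => ‖fderiv ℝ f x‖) ^ 2 =
        (120 * Real.sqrt D0 * EV D fun x => ‖fderiv ℝ f x‖) ^ 2 := by
      rw [mul_pow, mul_pow, Real.sq_sqrt hD0.le]
      field_simp
      ring
    rw [h3] at h2
    have hE0 : 0 ≤ EV D fun x => ‖fderiv ℝ f x‖ := by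
      unfold EV
      exact div_nonneg (integral_nonneg fun x => norm_nonneg _) ENNReal.toReal_nonneg
    have hV0 : 0 ≤ VV D f := by linarith
    have hV4 : VV D f ≤ 1 / 4 := by
      have hpos : 0 < (volume D).toReal := ENNReal.toReal_pos hvol.ne' hD.measure_lt_top.ne
      have : EV D (fun x => f x ^ 2) ≤ 1 / 4 := by
        unfold EV
        rw [div_le_iff₀ hpos]
        have h4 := norm_setIntegral_le_of_norm_le_const (μ := volume) (s := D)
          (f := fun x => f x ^ 2) (C := 1 / 4) hD.measure_lt_top (fun x _ => by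
            rw [Real.norm_eq_abs, abs_of_nonneg (sq_nonneg _), ← sq_abs]
            have := hf2 x
            have := abs_nonneg (f x)
            nlinarith)
        exact (le_abs_self _).trans h4
      unfold VV
      nlinarith [sq_nonneg (EV D f)]
    have h5 : Real.sqrt (VV D f) ≤ 120 * Real.sqrt D0 * EV D fun x => ‖fderiv ℝ f x‖ :=
      Real.sqrt_le_iff.2 ⟨by positivity, h2⟩
    have h6 : Real.sqrt (VV D f) ≤ 1 / 2 := by
      rw [Real.sqrt_le_iff]
      exact ⟨by norm_num, by linarith⟩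
    have h7 : VV D f = Real.sqrt (VV D f) * Real.sqrt (VV D f) := (Real.mul_self_sqrt hV0).symm
    rw [h7]
    have h8 : 0 ≤ Real.sqrt (VV D f) := Real.sqrt_nonneg _
    calc Real.sqrt (VV D f) * Real.sqrt (VV D f)
        ≤ 1 / 2 * (120 * Real.sqrt D0 * EV D fun x => ‖fderiv ℝ f x‖) :=
          mul_le_mul h6 h5 h8 (by norm_num)
      _ = _ := by ring) μ hμ S hS
  have h2 : μ S * (1 - μ S) = ENNReal.ofReal (1 / 4) := by
    rw [hS]
    have : (1 : ℝ≥0∞) - 1 / 2 = 1 / 2 := by
      rw [one_div]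
      exact ENNReal.one_sub_inv_two
    rw [this]
    rw [show (1 / 2 : ℝ≥0∞) = ENNReal.ofReal (1 / 2) by
      rw [ENNReal.ofReal_div_of_pos (by norm_num)]; simp]
    rw [← ENNReal.ofReal_mul (by norm_num)]
    norm_num
  rw [h2] at h1
  have h3 : ENNReal.ofReal (1 / (240 * Real.sqrt D0)) =
      (ENNReal.ofReal (60 * Real.sqrt D0))⁻¹ * ENNReal.ofReal (1 / 4) := by
    rw [← ENNReal.ofReal_inv_of_pos (by positivity), ← ENNReal.ofReal_mul (by positivity)]
    congr 1
    field_simp
    norm_num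
  rw [h3, ENNReal.inv_mul_le_iff (by
    rw [Ne, ENNReal.ofReal_eq_zero, not_le]; positivity) ENNReal.ofReal_ne_top]
  exact h1

end Pool.Agent.Q188.SB
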